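import Mathlib
import Pool.Agent.MP_0f075e_lc.H37.Low

namespace Pool.Agent.Results.MP_0f075e_lc.LowerBound

open Pool.Agent.MP_0f075e_lc

theorem result : ∃ N : ℕ, ∀ n : ℕ, N ≤ n → (187 / 100 * n : ℝ) ^ n ≤ (s n : ℝ) := H37.s_lower'

end Pool.Agent.Results.MP_0f075e_lc.LowerBound
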