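import Mathlib
import Pool.Agent.MP_0f075e_lc.H37.Up

namespace Pool.Agent.Results.MP_0f075e_lc.UpperBound

open Pool.Agent.MP_0f075e_lc

theorem result : ∃ N : ℕ, ∀ n : ℕ, N ≤ n → (s n : ℝ) ≤ (215 / 100 * n : ℝ) ^ n := H37.s_upper

end Pool.Agent.Results.MP_0f075e_lc.UpperBound
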