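import Pool.Agent.MP_0f075e_lc.W55.Fin

namespace Pool.Agent.Results.MP_0f075e_lc.WeakExact

open Pool.Agent.MP_0f075e_lc

theorem result (n : ℕ) (hn : 1 ≤ n) : sWeak n = 3 ^ (n - 1) + 2 ^ (n - 1) - 1 :=
  W55.sWeak_eq n hn

end Pool.Agent.Results.MP_0f075e_lc.WeakExact
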